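import Pool.Agent.H56.KAF.Stmts

/-!
# Module SUB: every law is the image of a law which is positive everywhere
-/

set_option autoImplicit false

namespace Pool.KAF

open Finset Real
open Pool.Agent.H49.Ent Pool.Agent.H32.Dense Pool.STK

theorem sub_thm : SUBStmt := by
  classical
  intro Ω _ p hp
  have hs : ∀ g : Ω → ℝ, (∑ ω : {ω : Ω // 0 < p ω}, g ω * p ω) = ∑ ω, g ω * p ω := by
    intro g
    rw [← Finset.sum_subtype (univ.filter fun ω => 0 < p ω) (fun x => by simp)
      (fun ω => g ω * p ω)]
    refine Finset.sum_subset (Finset.subset_univ _) fun ω _ h => ?_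
    have h1 : ¬ 0 < p ω := by simpa using h
    have h2 : p ω = 0 := le_antisymm (not_lt.mp h1) (hp.nonneg ω)
    rw [h2, mul_zero]
  refine ⟨{ω : Ω // 0 < p ω}, inferInstance, fun ω => p ω, fun ω => ω,
    ⟨fun ω => hp.nonneg _, ?_⟩, fun ω => ω.2, ?_⟩
  · have h := hs (fun _ => 1)
    simp only [one_mul] at h
    rw [h, hp.sum_one]
  · intro ω
    have h := hs (fun v => if v = ω then 1 else 0)
    simp only [ite_mul, one_mul, zero_mul, Finset.sum_ite_eq', Finset.mem_univ, if_true] at h
    rw [← h]

end Pool.KAF
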